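import Pool.Agent.Lib.MP_dde81e_full.Z9

/-!
# The Muntz type conjecture on the unit square (Q1 and Q2)

If `Ω` is a set of pairs of positive integers in an angle `ε m ≤ n ≤ m / ε` and
`∑ 1 / (m n) = ∞`, then the monomials `x ^ m y ^ n`, `(m, n) ∈ Ω`, span `C_0(Q)` and `L²(Q)`.
-/

namespace Pool.Agent.Results.MP_dde81e_an.Conjecture
open Set

/-- The unit square as a compact space. -/
abbrev Sq : Type := unitInterval × unitInterval

/-- The monomial `x^m y^n` as a continuous function on the unit square. -/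
def mono (p : ℕ × ℕ) : C(Sq, ℝ) where
  toFun q := (q.1 : ℝ) ^ p.1 * (q.2 : ℝ) ^ p.2
  continuous_toFun := by fun_prop

/-- The monomials with exponents in `Ω` span `C_0(Q)`: every continuous function on the square
that vanishes on `{x = 0} ∪ {y = 0}` is a uniform limit of finite linear combinations. -/
def SpansC0 (Ω : Set (ℕ × ℕ)) : Prop :=
  ∀ f : C(Sq, ℝ), (∀ q : Sq, (q.1 : ℝ) = 0 ∨ (q.2 : ℝ) = 0 → f q = 0) →
    ∀ ε > 0, ∃ g ∈ Submodule.span ℝ (mono '' Ω), ‖f - g‖ < ε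

/-- Lebesgue measure on the unit square. -/
noncomputable def muQ : MeasureTheory.Measure (ℝ × ℝ) :=
  MeasureTheory.volume.restrict (Icc (0 : ℝ) 1 ×ˢ Icc (0 : ℝ) 1)

/-- the monomial `x^m y^n` as a function on the plane -/
def monoFun (p : ℕ × ℕ) : ℝ × ℝ → ℝ := fun q => q.1 ^ p.1 * q.2 ^ p.2

/-- The monomials with exponents in `Ω` span `L²(Q)`. -/
def SpansL2 (Ω : Set (ℕ × ℕ)) : Prop :=
  ∀ f : ℝ × ℝ → ℝ, MeasureTheory.MemLp f 2 muQ →
    ∀ ε : ℝ, 0 < ε → ∃ g ∈ Submodule.span ℝ (monoFun '' Ω),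
      MeasureTheory.eLpNorm (f - g) 2 muQ < ENNReal.ofReal ε

/-- **The Muntz type theorem on the square.**  `Ω` is a set of pairs of positive integers in the
angle `ε m ≤ n ≤ m / ε`, `0 < ε ≤ 1`, and the series of the `1 / (m n)`, `(m, n) ∈ Ω`, diverges.
Then the monomials `x ^ m y ^ n`, `(m, n) ∈ Ω`, span `C_0(Q)` and `L²(Q)`. -/
theorem result {Ω : Set (ℕ × ℕ)} {ε : ℝ} (hε : 0 < ε) (hε1 : ε ≤ 1)
    (hpos : ∀ p ∈ Ω, 1 ≤ p.1 ∧ 1 ≤ p.2)
    (hang : ∀ p ∈ Ω, ε * p.1 ≤ p.2 ∧ (p.2 : ℝ) ≤ p.1 / ε)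
    (hdiv : ¬ Summable (fun p : Ω => 1 / ((p.1.1 : ℝ) * p.1.2))) :
    SpansC0 Ω ∧ SpansL2 Ω :=
  MuntzF.spans_of_main MuntzF.mainStmt hε hε1 hpos hang hdiv

end Pool.Agent.Results.MP_dde81e_an.Conjecture
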